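import Pool.Agent.W355.LJ.HeckeC
import Pool.Agent.W164.RC.Final

set_option autoImplicit false

/-!
# Completed L-functions of the Hecke characters modulo `q`
-/

namespace Pool.Agent.W355.EK

open Complex Filter Topology Set
open scoped ComplexConjugate
open Pool.Agent.W355.LJ
open H385 (ZI RQ im1 chiZ FQs phiQ nrm)
open Pool.Agent.H304R3.HK (tc HC LH bH psi bb goodH)
open Pool.Agent.W164.RC (FE Cq)

/-- two analytic functions on a half-plane which agree far to the right -/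
theorem half_eq {f g : ℂ → ℂ} {a σ : ℝ} (hf : ∀ s : ℂ, a < s.re → AnalyticAt ℂ f s)
    (hg : ∀ s : ℂ, a < s.re → AnalyticAt ℂ g s) (h : ∀ s : ℂ, σ ≤ s.re → f s = g s) (s : ℂ)
    (hs : a < s.re) : f s = g s := by
  have hU : IsPreconnected {s : ℂ | a < s.re} := (convex_halfSpace_re_gt a).isPreconnected
  have hf' : AnalyticOnNhd ℂ f {s : ℂ | a < s.re} := fun s hs => hf s hs
  have hg' : AnalyticOnNhd ℂ g {s : ℂ | a < s.re} := fun s hs => hg s hs
  set z0 : ℂ := ((max a σ + 1 : ℝ) : ℂ) with hz0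
  have h0 : a < z0.re := by
    rw [hz0, Complex.ofReal_re]
    have := le_max_left a σ
    linarith
  have h1 : σ < z0.re := by
    rw [hz0, Complex.ofReal_re]
    have := le_max_right a σ
    linarith
  have hev : f =ᶠ[𝓝 z0] g := by
    have h2 : {s : ℂ | σ < s.re} ∈ 𝓝 z0 := (isOpen_lt continuous_const Complex.continuous_re).mem_nhds h1
    filter_upwards [h2] with s hs
    exact h s (le_of_lt hs)
  exact hf'.eqOn_of_preconnected_of_eventuallyEq hg' hU h0 hev hs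

theorem hc_hck {q : ZI} {χ : ZI →* ℂ} (H : HC q χ) : Pool.Agent.W354.PK.HCk 1 q χ :=
  ⟨H.q0, H.per, H.supp, H.nrm, by rw [H.unit, pow_one], H.prim⟩

theorem bK_one_eq (χ : ZI →* ℂ) (n : ℕ) : Pool.Agent.W354.PK.bK 1 χ n = bH χ n := by
  unfold Pool.Agent.W354.PK.bK bH bb
  congr 1
  refine Finset.sum_congr rfl fun p _ => ?_
  show (if _ then _ else _) = (if _ then _ else _)
  split_ifs
  · rfl
  · rw [pow_one]

/-- the completed L-function of one Hecke character -/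
theorem good_HC {q : ZI} {χ : ZI →* ℂ} (H : HC q χ) : ∃ (w : ℂ) (Λ : ℂ → ℂ), Good w Λ
    (fun s => ((4 * Zsqrtd.norm q : ℤ) : ℂ) ^ (s / 2) * Gammaℂ (s + 1 / 2) * LH χ s) := by
  obtain ⟨A, -, hgood⟩ := goodH
  have hser := (hgood q χ H).2.1
  obtain ⟨w, Λ, l, M, b, h1, h2, h3, σ, h4⟩ := good_hecke (k := 1) le_rfl q χ (hc_hck H)
  refine ⟨w, Λ, l, M, b, h1, h2, h3, max σ 2, fun s hs => ?_⟩
  rw [h4 s ((le_max_left _ _).trans hs)]
  have hs1 : 1 < s.re := by
    have := (le_max_right σ 2).trans hs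
    linarith
  have e1 : LSeries (Pool.Agent.W354.PK.bK 1 χ) s = LH χ s := by
    have h5 := hser s hs1
    have h6 : Pool.Agent.W354.PK.bK 1 χ = bH χ := funext (bK_one_eq χ)
    rw [h6, ← h5.tsum_eq]
    unfold LSeries
    refine tsum_congr fun n => ?_
    rcases Nat.eq_zero_or_pos n with rfl | hn
    · rw [LSeries.term_zero]
      have : bH χ 0 = 0 := by
        have h7 := (Pool.Agent.H304R3.HK.lg_bb (psi χ)
          (Pool.Agent.H304R3.HK.uh_psi q χ H)).b0
        exact h7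
      rw [this, zero_mul]
    · rw [LSeries.term_of_ne_zero hn.ne', Complex.cpow_neg, div_eq_mul_inv]
  simp only
  rw [e1, Nat.cast_one]

section
variable (cd : (q : ZI) → MulChar (RQ q) ℂ → ZI)
    (pr : (q : ZI) → MulChar (RQ q) ℂ → (ZI →* ℂ))
    (hprim : ∀ q : ZI, q ≠ 0 → ∀ χ ∈ FQs q, cd q χ ∣ q ∧ HC (cd q χ) (pr q χ) ∧
      ∀ a : ZI, IsCoprime a q → pr q χ a = chiZ q χ a)

/-- the conductor and the Gamma factor -/
noncomputable def GG (q : ZI) (s : ℂ) : ℂ :=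
  ∏ χ ∈ FQs q, (((4 * Zsqrtd.norm (cd q χ) : ℤ) : ℂ) ^ (s / 2) * Gammaℂ (s + 1 / 2))

/-- the product of the L-functions -/
noncomputable def LQ (q : ZI) (s : ℂ) : ℂ := ∏ χ ∈ FQs q, LH (pr q χ) s

include hprim

theorem good_Q {q : ZI} (hq : q ≠ 0) (hne : (FQs q).Nonempty) :
    ∃ (w : ℂ) (Λ : ℂ → ℂ), Good w Λ (fun s => GG cd q s * LQ pr q s) := by
  classical
  obtain ⟨w, Λ, h⟩ := good_list (ι := {χ // χ ∈ FQs q})
    (fun χ s => ((4 * Zsqrtd.norm (cd q χ.1) : ℤ) : ℂ) ^ (s / 2) * Gammaℂ (s + 1 / 2) *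
      LH (pr q χ.1) s) (fun χ => good_HC (hprim q hq χ.1 χ.2).2.1) (FQs q).attach.toList (by
      intro h
      have h1 := Finset.toList_eq_nil.1 h
      rw [Finset.attach_eq_empty_iff] at h1
      exact hne.ne_empty h1)
  refine ⟨w, Λ, ?_⟩
  convert h using 2 with s
  rw [Finset.prod_map_toList]
  unfold GG LQ
  rw [← Finset.prod_mul_distrib, ← Finset.prod_attach (FQs q)]

theorem LQ_diff {q : ZI} (hq : q ≠ 0) : Differentiable ℂ (LQ pr q) := by
  obtain ⟨A, hA, hgood⟩ := goodH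
  have h0 : LQ pr q = fun s => ∏ χ ∈ FQs q, LH (pr q χ) s := rfl
  rw [h0]
  exact Differentiable.fun_finsetProd fun χ hχ => (hgood _ _ (hprim q hq χ hχ).2.1).1

omit hprim in
theorem gc_an {s : ℂ} (hs : -(1 / 2 : ℝ) < s.re) : AnalyticAt ℂ (fun s => Gammaℂ (s + 1 / 2)) s := by
  have hre : ∀ z : ℂ, -(1 / 2 : ℝ) < z.re → 0 < (z + 1 / 2).re := by
    intro z hz
    have : (z + 1 / 2).re = z.re + 1 / 2 := by simp
    rw [this]
    linarith
  have h1 : DifferentiableOn ℂ (fun s => Gammaℂ (s + 1 / 2)) {z : ℂ | -(1 / 2 : ℝ) < z.re} := by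
    intro z hz
    have h2 : DifferentiableAt ℂ Complex.Gamma (z + 1 / 2) := by
      refine Complex.differentiableAt_Gamma _ fun m hm => ?_
      have h3 := hre z hz
      rw [hm] at h3
      have h4 : (-(m : ℂ)).re = -(m : ℝ) := by simp
      rw [h4] at h3
      have : (0 : ℝ) ≤ m := Nat.cast_nonneg m
      linarith
    have h5 : DifferentiableAt ℂ (fun z : ℂ => Complex.Gamma (z + 1 / 2)) z :=
      h2.comp z (by fun_prop : DifferentiableAt ℂ (fun z : ℂ => z + 1 / 2) z)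
    have h6 : DifferentiableAt ℂ (fun z : ℂ => (2 * (Real.pi : ℂ)) ^ (-(z + 1 / 2))) z := by
      refine DifferentiableAt.const_cpow (by fun_prop) (Or.inl ?_)
      exact mul_ne_zero two_ne_zero (by exact_mod_cast Real.pi_ne_zero)
    have h7 : (fun s => Gammaℂ (s + 1 / 2)) = fun z : ℂ =>
        2 * (2 * (Real.pi : ℂ)) ^ (-(z + 1 / 2)) * Complex.Gamma (z + 1 / 2) := by
      funext z
      rw [Complex.Gammaℂ_def]
    rw [h7]
    exact ((h6.const_mul 2).mul h5).differentiableWithinAt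
  exact h1.analyticAt ((isOpen_lt continuous_const Complex.continuous_re).mem_nhds hs)

theorem GG_an {q : ZI} (hq : q ≠ 0) {s : ℂ} (hs : -(1 / 2 : ℝ) < s.re) :
    AnalyticAt ℂ (GG cd q) s := by
  have h0 : GG cd q = fun s => ∏ χ ∈ FQs q,
    (((4 * Zsqrtd.norm (cd q χ) : ℤ) : ℂ) ^ (s / 2) * Gammaℂ (s + 1 / 2)) := rfl
  rw [h0]
  refine Finset.analyticAt_fun_prod _ fun χ hχ => ?_
  refine AnalyticAt.mul ?_ (gc_an hs)
  have h1 : ((4 * Zsqrtd.norm (cd q χ) : ℤ) : ℂ) ≠ 0 := by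
    have h2 := GaussianInt.norm_pos.2 (hprim q hq χ hχ).2.1.q0
    have : 4 * Zsqrtd.norm (cd q χ) ≠ 0 := by omega
    exact_mod_cast this
  have h3 : Differentiable ℂ fun s : ℂ => ((4 * Zsqrtd.norm (cd q χ) : ℤ) : ℂ) ^ (s / 2) := by
    intro z
    exact DifferentiableAt.const_cpow (by fun_prop) (Or.inl h1)
  exact h3.analyticAt s

/-- The completed function on the half-plane `Re s > -1/2`. -/
theorem good_Q_half {q : ZI} (hq : q ≠ 0) {w : ℂ} {Λ : ℂ → ℂ}
    (h : Good w Λ (fun s => GG cd q s * LQ pr q s)) {s : ℂ} (hs : -(1 / 2 : ℝ) < s.re) :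
    Λ s = GG cd q s * LQ pr q s := by
  obtain ⟨l, M, b, n, u, c, σ, e⟩ := h
  exact half_eq (fun s _ => c.entire.analyticAt s)
    (fun s hs => (GG_an cd pr hprim hq hs).mul ((LQ_diff cd pr hprim hq).analyticAt s)) e s hs

end

end Pool.Agent.W355.EK
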