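import Pool.Agent.W355.LJ.CD
import Pool.Agent.W164.RC.Bad

set_option autoImplicit false

/-!
# Quotients of finite Euler products
-/

namespace Pool.Agent.W355.EK

open Complex Polynomial
open scoped ComplexConjugate
open Pool.Agent.W355.LJ
open H385 (ZI RQ im1 chiZ FQs phiQ nrm)
open Pool.Agent.W164.RC

/-- Quotients of finite Euler products: the class generated by the nonzero constants and the
functions `P (n ^ (-s))`, where `P` is a polynomial with constant term one and `n ≥ 2`. -/
inductive EulerQuot : (ℂ → ℂ) → Prop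
  | const (c : ℂ) (hc : c ≠ 0) : EulerQuot fun _ => c
  | factor (n : ℕ) (hn : 2 ≤ n) (P : ℂ[X]) (hP : P.coeff 0 = 1) :
      EulerQuot fun s => P.eval ((n : ℂ) ^ (-s))
  | mul {f g : ℂ → ℂ} (hf : EulerQuot f) (hg : EulerQuot g) : EulerQuot fun s => f s * g s
  | inv {f : ℂ → ℂ} (hf : EulerQuot f) : EulerQuot fun s => (f s)⁻¹

theorem EulerQuot.congr {f g : ℂ → ℂ} (hf : EulerQuot f) (h : ∀ s, g s = f s) : EulerQuot g := by
  have : g = f := funext h
  rwa [this]

theorem EulerQuot.prod {ι : Type*} (S : Finset ι) (f : ι → ℂ → ℂ)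
    (h : ∀ i ∈ S, EulerQuot (f i)) : EulerQuot fun s => ∏ i ∈ S, f i s := by
  classical
  induction S using Finset.induction_on with
  | empty =>
    exact (EulerQuot.const 1 one_ne_zero).congr fun s => by simp
  | insert i S hi ih =>
    refine (EulerQuot.mul (h i (Finset.mem_insert_self _ _))
      (ih fun j hj => h j (Finset.mem_insert_of_mem hj))).congr fun s => ?_
    rw [Finset.prod_insert hi]

/-- translation by a real number -/
theorem EulerQuot.shift {f : ℂ → ℂ} (hf : EulerQuot f) (a : ℝ) : EulerQuot fun s => f (s - a) := by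
  induction hf with
  | const c hc => exact EulerQuot.const c hc
  | factor n hn P hP =>
    have hn0 : (n : ℂ) ≠ 0 := by
      have : n ≠ 0 := by omega
      exact_mod_cast this
    refine (EulerQuot.factor n hn (P.comp (C ((n : ℂ) ^ (a : ℂ)) * X)) ?_).congr fun s => ?_
    · rw [Polynomial.coeff_zero_eq_eval_zero, Polynomial.eval_comp]
      simp only [eval_mul, eval_C, eval_X, mul_zero]
      rw [← Polynomial.coeff_zero_eq_eval_zero, hP]
    · simp only [eval_comp, eval_mul, eval_C, eval_X]
      congr 1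
      rw [← Complex.cpow_add _ _ hn0]
      congr 1
      ring
  | mul _ _ ih1 ih2 => exact EulerQuot.mul ih1 ih2
  | inv _ ih => exact EulerQuot.inv ih

/-- complex conjugation -/
theorem EulerQuot.star {f : ℂ → ℂ} (hf : EulerQuot f) : EulerQuot (st f) := by
  induction hf with
  | const c hc => exact EulerQuot.const (conj c) ((_root_.map_ne_zero _).2 hc)
  | factor n hn P hP =>
    have hn0 : (n : ℂ) ≠ 0 := by
      have : n ≠ 0 := by omega
      exact_mod_cast this
    refine (EulerQuot.factor n hn (P.map (starRingEnd ℂ)) ?_).congr fun s => ?_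
    · rw [Polynomial.coeff_map, hP, map_one]
    · unfold st
      have h1 : (n : ℂ) ^ (-(conj s)) = conj ((n : ℂ) ^ (-s)) := by
        rw [← map_neg, Complex.cpow_def_of_ne_zero hn0, Complex.cpow_def_of_ne_zero hn0,
          ← Complex.exp_conj, map_mul, ← Complex.natCast_log, Complex.conj_ofReal]
      simp only
      rw [h1, Polynomial.eval_map]
      have h2 := Polynomial.hom_eval₂ P (RingHom.id ℂ) (starRingEnd ℂ) (conj ((n : ℂ) ^ (-s)))
      rw [Complex.conj_conj, RingHom.comp_id] at h2
      exact h2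
  | mul _ _ ih1 ih2 =>
    refine (EulerQuot.mul ih1 ih2).congr fun s => ?_
    unfold st
    rw [map_mul]
  | inv _ ih =>
    refine (EulerQuot.inv ih).congr fun s => ?_
    unfold st
    rw [map_inv₀]

theorem cq_quot (q : ZI) (h : ZI →* ℂ) : EulerQuot (Cq q h) := by
  classical
  unfold Cq
  refine EulerQuot.prod _ _ fun p _ => ?_
  unfold cp
  by_cases hp2 : (p : ℕ) = 2
  · simp only [if_pos hp2]
    refine (EulerQuot.factor p p.2.two_le (1 - C (h ⟨1, 1⟩) * X) (by simp)).congr fun s => ?_
    simp
  · simp only [if_neg hp2]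
    refine EulerQuot.prod _ _ fun z _ => ?_
    refine (EulerQuot.factor p p.2.two_le (1 - C (h z) * X ^ dg p) ?_).congr fun s => ?_
    · rw [Polynomial.coeff_zero_eq_eval_zero]
      simp [Pool.Agent.W164.RC.dg_pos]
    · simp

theorem lpoly_quot (a ε : ℤ) {n : ℕ} (hn : 2 ≤ n) : EulerQuot (lpoly a ε n) := by
  refine (EulerQuot.factor n hn (1 - C (a : ℂ) * X + C ((ε : ℂ) * n) * X ^ 2) ?_).congr
    fun s => ?_
  · rw [Polynomial.coeff_zero_eq_eval_zero]
    simp
  · have hn0 : (n : ℂ) ≠ 0 := by
      have : n ≠ 0 := by omega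
      exact_mod_cast this
    unfold lpoly
    simp only [eval_add, eval_sub, eval_one, eval_mul, eval_C, eval_X, eval_pow]
    have : (n : ℂ) ^ (1 - 2 * s) = n * ((n : ℂ) ^ (-s)) ^ 2 := by
      rw [sub_eq_add_neg, Complex.cpow_add _ _ hn0, Complex.cpow_one, ← Complex.cpow_nat_mul]
      congr 2
      push_cast
      ring
    rw [this]
    ring

end Pool.Agent.W355.EK
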