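import Pool.Agent.W355.EK.Star
import Pool.Agent.W355.EK.EQ

set_option autoImplicit false

/-!
# The Euler product of `L(E/K, s)`
(the arithmetic part of `Results/MP_fb225e_nt/RayClassFields6725.lean` of helper164)
-/

namespace Pool.Agent.W355.EK

open Complex Filter Topology Set NumberField IsDedekindDomain
open scoped ComplexConjugate
open Pool.Agent.W355.LJ
open H385 (ZI RQ im1 chiZ FQs phiQ nrm)
open Pool.Agent.H304R3.HK (tc HC LH bH psi bb goodH)
open Pool.Agent.W164.RC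

/-- the places of `K` dividing `q` or `D` -/
def exc {K : Type} [Field K] [NumberField K] (q : GaussianInt) (ι : GaussianInt →+* 𝓞 K) (D : ℤ) :
    Set (HeightOneSpectrum (𝓞 K)) :=
  {v | ι q ∈ v.asIdeal ∨ (D : 𝓞 K) ∈ v.asIdeal}

open Classical in
/-- The Euler factor at `v` of `y² = x³ - D x`. -/
noncomputable def fac {K : Type} [Field K] [NumberField K] (q : GaussianInt)
    (ι : GaussianInt →+* 𝓞 K) (D : ℤ)
    (a ε : HeightOneSpectrum (𝓞 K) → ℤ) (s : ℂ) (v : HeightOneSpectrum (𝓞 K)) : ℂ :=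
  if v ∈ exc q ι D then (lpoly (a v) (ε v) (Ideal.absNorm v.asIdeal) s)⁻¹
  else (lpoly (((Ideal.absNorm v.asIdeal : ℕ) : ℤ) -
      ((Nat.card {p : (𝓞 K ⧸ v.asIdeal) × (𝓞 K ⧸ v.asIdeal) //
        p.2 ^ 2 = p.1 ^ 3 - (D : 𝓞 K ⧸ v.asIdeal) * p.1} : ℕ) : ℤ)) 1
      (Ideal.absNorm v.asIdeal) s)⁻¹

theorem curve {F : ℂ → ℂ} {q : ZI} (hq : q ≠ 0) (h2 : two2 ∣ q)
    (K : Type) [Field K] [NumberField K] (ι : ZI →+* 𝓞 K) (D : ℤ)
    (hιinj : Function.Injective ι)
    (hprod : ∀ s : ℂ, 3 / 2 < s.re → HasProd (open Classical in fun v : HeightOneSpectrum (𝓞 K) =>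
        if ι q ∈ v.asIdeal then 1 else eulerFactor s v) (F s))
    (hD : D ≠ 0) (hd : ∃ d : 𝓞 K, d ^ 4 = (D : 𝓞 K))
    (a ε : HeightOneSpectrum (𝓞 K) → ℤ)
    (hpos : ∀ v ∈ exc q ι D, Poss (Ideal.absNorm v.asIdeal) (a v) (ε v)) :
    (exc q ι D).Finite ∧ ∃ R : ℂ → ℂ, EulerQuot R ∧
      (∀ s : ℂ, 1 / 2 < s.re → AnalyticAt ℂ R s ∧ R s ≠ 0) ∧
      ∀ s : ℂ, 3 / 2 < s.re → HasProd (fac q ι D a ε s) (F s * R s) := by
  classical
  obtain ⟨d, hd⟩ := hd
  have hιq : ι q ≠ 0 := fun h => hq (hιinj (by rw [h, map_zero]))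
  have hDK : (D : 𝓞 K) ≠ 0 := by exact_mod_cast hD
  have hfin : (exc q ι D).Finite := (places_finite hιq).union (places_finite hDK)
  set S : Finset (HeightOneSpectrum (𝓞 K)) := hfin.toFinset with hS
  have hmemS : ∀ v, v ∈ S ↔ v ∈ exc q ι D := fun v => by rw [hS]; simp
  have hn2 : ∀ v : HeightOneSpectrum (𝓞 K), 2 ≤ Ideal.absNorm v.asIdeal :=
    fun v => Pool.Agent.H921R2.TatePole.two_le_nm v
  -- places over two
  have htwo : ∀ v : HeightOneSpectrum (𝓞 K), ι q ∉ v.asIdeal →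
      (Pool.Agent.H921R2.TatePole.below v : ℕ) ≠ 2 := by
    intro v hv hb
    apply hv
    have h7 := (Pool.Agent.H921R2.TatePole.nm_eq v).2.2
    rw [hb] at h7
    have h4 : ι ⟨1, 1⟩ ∈ v.asIdeal := by
      have h5 : ι ⟨1, 1⟩ * ι ⟨1, 1⟩ ∈ v.asIdeal := by
        have e : ((⟨1, 1⟩ : ZI) * ⟨1, 1⟩) = ⟨0, 1⟩ * ((2 : ℕ) : ZI) := by decide
        rw [← map_mul, e, map_mul, map_natCast]
        exact v.asIdeal.mul_mem_left _ h7
      rcases v.isPrime.mem_or_mem h5 with h | h <;> exact h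
    obtain ⟨c, rfl⟩ := (show (⟨1, 1⟩ : ZI) ∣ two2 from ⟨2, by decide⟩).trans h2
    rw [map_mul]
    exact v.asIdeal.mul_mem_right _ h4
  -- the numerator at the exceptional places not dividing `q`
  set g : HeightOneSpectrum (𝓞 K) → ℂ → ℂ := fun v s =>
    if ι q ∈ v.asIdeal then 1
    else lpoly (tr v) 1 (Ideal.absNorm v.asIdeal) s with hg
  have hgdiff : ∀ v, Differentiable ℂ (g v) := by
    intro v
    rw [hg]
    by_cases h : ι q ∈ v.asIdeal
    · simp only [if_pos h]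
      exact differentiable_const _
    · simp only [if_neg h]
      exact lpoly_diff _ _ (hn2 v)
  have hgne : ∀ v (s : ℂ), 1 / 2 < s.re → g v s ≠ 0 := by
    intro v s hs
    rw [hg]
    by_cases h : ι q ∈ v.asIdeal
    · simp only [if_pos h]
      exact one_ne_zero
    · simp only [if_neg h]
      exact lpoly_ne (hn2 v) (tr_poss v (htwo v h)) hs
  set P : HeightOneSpectrum (𝓞 K) → ℂ → ℂ := fun v s =>
    lpoly (a v) (ε v) (Ideal.absNorm v.asIdeal) s with hP
  have hPdiff : ∀ v, Differentiable ℂ (P v) := fun v => lpoly_diff _ _ (hn2 v)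
  have hPne : ∀ v ∈ S, ∀ s : ℂ, 1 / 2 < s.re → P v s ≠ 0 := by
    intro v hv s hs
    exact lpoly_ne (hn2 v) (hpos v ((hmemS v).1 hv)) hs
  set R : ℂ → ℂ := fun s => ∏ v ∈ S, (g v s * (P v s)⁻¹) with hR
  refine ⟨hfin, R, ?_, fun s hs => ⟨?_, ?_⟩, fun s hs => ?_⟩
  · rw [hR]
    refine EulerQuot.prod S (fun v s => g v s * (P v s)⁻¹) fun v _ => ?_
    refine EulerQuot.mul ?_ (EulerQuot.inv (lpoly_quot _ _ (hn2 v)))
    rw [hg]
    by_cases h : ι q ∈ v.asIdeal
    · simp only [if_pos h]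
      exact EulerQuot.const 1 one_ne_zero
    · simp only [if_neg h]
      exact lpoly_quot _ _ (hn2 v)
  · rw [hR]
    apply Finset.analyticAt_fun_prod
    intro v hv
    exact ((hgdiff v).analyticAt s).mul (((hPdiff v).analyticAt s).inv (hPne v hv s hs))
  · rw [hR]
    simp only
    rw [Finset.prod_ne_zero_iff]
    intro v hv
    exact mul_ne_zero (hgne v s hs) (inv_ne_zero (hPne v hv s hs))
  · have hs' : 1 / 2 < s.re := by linarith
    have h3 : HasProd (fun v : HeightOneSpectrum (𝓞 K) =>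
        if v ∈ S then g v s * (P v s)⁻¹ else 1) (R s) := by
      have h4 : R s = ∏ v ∈ S, (if v ∈ S then g v s * (P v s)⁻¹ else 1) := by
        rw [hR]
        exact Finset.prod_congr rfl fun v hv => by rw [if_pos hv]
      rw [h4]
      apply hasProd_prod_of_ne_finset_one
      intro v hv
      rw [if_neg hv]
    have h5 := (hprod s hs).mul h3
    refine h5.congr_fun ?_
    intro v
    unfold fac
    by_cases hv : v ∈ exc q ι D
    · rw [if_pos hv, if_pos ((hmemS v).2 hv)]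
      have hg1 := hgne v s hs'
      by_cases hvq : ι q ∈ v.asIdeal
      · rw [if_pos hvq]
        have : g v s = 1 := by rw [hg]; simp only [if_pos hvq]
        rw [this, one_mul, one_mul]
      · rw [if_neg hvq, eulerFactor_lpoly]
        have : g v s = lpoly (tr v) 1 (Ideal.absNorm v.asIdeal) s := by
          rw [hg]; simp only [if_neg hvq]
        rw [← this, ← mul_assoc, inv_mul_cancel₀ hg1, one_mul]
    · have hvS : v ∉ S := fun h => hv ((hmemS v).1 h)
      have hvq : ι q ∉ v.asIdeal := fun h => hv (Or.inl h)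
      have hvD : (D : 𝓞 K) ∉ v.asIdeal := fun h => hv (Or.inr h)
      rw [if_neg hv, if_neg hvS, if_neg hvq, mul_one, eulerFactor_lpoly]
      have hmax : v.asIdeal.IsMaximal := v.isPrime.isMaximal v.ne_bot
      letI : Field (𝓞 K ⧸ v.asIdeal) := Ideal.Quotient.field v.asIdeal
      have hd4 : (Ideal.Quotient.mk v.asIdeal d) ^ 4 = (D : 𝓞 K ⧸ v.asIdeal) := by
        rw [← map_pow, hd, map_intCast]
      have hd0 : Ideal.Quotient.mk v.asIdeal d ≠ 0 := by
        intro h0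
        rw [h0, zero_pow (by norm_num)] at hd4
        apply hvD
        rw [← Ideal.Quotient.eq_zero_iff_mem, map_intCast]
        exact hd4.symm
      have hct := card_twist (Ideal.Quotient.mk v.asIdeal d) hd0
      rw [hd4] at hct
      rw [hct]
      rfl

theorem iota_inj {K : Type} [Field K] [NumberField K] (ι : ZI →+* 𝓞 K) :
    Function.Injective ι := by
  rw [injective_iff_map_eq_zero]
  intro b hb
  by_contra h0
  have h3 : ι ((b.norm : ℤ) : ZI) = 0 := by
    rw [Zsqrtd.norm_eq_mul_conj, map_mul, hb, zero_mul]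
  rw [map_intCast] at h3
  have h4 : b.norm = 0 := by exact_mod_cast h3
  exact h0 (GaussianInt.norm_eq_zero.1 h4)

end Pool.Agent.W355.EK
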