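import Pool.Agent.W355.EK.Curve
import Pool.Agent.W355.LJ.Heat

set_option autoImplicit false

/-!
# `L(E/K, s)`: completed function and criterion
-/

namespace Pool.Agent.W355.EK

open Complex Filter Topology Set NumberField IsDedekindDomain
open scoped ComplexConjugate
open Pool.Agent.W355.LJ
open H385 (ZI RQ im1 chiZ FQs phiQ nrm)
open Pool.Agent.H304R3.HK (tc HC LH bH psi bb goodH uh_psi)
open Pool.Agent.W164.RC
open Pool.Agent.H471R3.GJ.Crit (LogCriterion)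

/-- the finite product of the Euler factors at the primes dividing `q` -/
noncomputable def CQ (pr : (q : ZI) → MulChar (RQ q) ℂ → (ZI →* ℂ)) (q : ZI) (s : ℂ) : ℂ :=
  ∏ χ ∈ FQs q, Cq q (psi (pr q χ)) s

theorem prod_cpow {ι : Type*} (S : Finset ι) (x : ι → ℝ) (hx : ∀ i ∈ S, 0 < x i) (u : ℂ) :
    ∏ i ∈ S, ((x i : ℝ) : ℂ) ^ u = (((∏ i ∈ S, x i : ℝ)) : ℂ) ^ u := by
  classical
  induction S using Finset.induction_on with
  | empty => simp
  | insert i S hi ih =>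
    rw [Finset.prod_insert hi, Finset.prod_insert hi, ih fun j hj => hx j (Finset.mem_insert_of_mem hj),
      Complex.ofReal_mul, Complex.mul_cpow_ofReal_nonneg (hx i (Finset.mem_insert_self _ _)).le
        (Finset.prod_nonneg fun j hj => (hx j (Finset.mem_insert_of_mem hj)).le)]

section
variable (cd : (q : ZI) → MulChar (RQ q) ℂ → ZI)
    (pr : (q : ZI) → MulChar (RQ q) ℂ → (ZI →* ℂ))
    (hprim : ∀ q : ZI, q ≠ 0 → ∀ χ ∈ FQs q, cd q χ ∣ q ∧ HC (cd q χ) (pr q χ) ∧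
      ∀ a : ZI, IsCoprime a q → pr q χ a = chiZ q χ a)

theorem FE_eq_mul (q : ZI) (s : ℂ) : FE pr q s = LQ pr q s * CQ pr q s := by
  unfold FE LQ CQ
  rw [Finset.prod_mul_distrib]

theorem CQ_diff (q : ZI) : Differentiable ℂ (CQ pr q) := by
  have h0 : CQ pr q = fun s => ∏ χ ∈ FQs q, Cq q (psi (pr q χ)) s := rfl
  rw [h0]
  exact Differentiable.fun_finsetProd fun χ _ => Cq_diff q _

include hprim

theorem CQ_ne {q : ZI} (hq : q ≠ 0) {s : ℂ} (hs : 0 < s.re) : CQ pr q s ≠ 0 := by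
  unfold CQ
  rw [Finset.prod_ne_zero_iff]
  intro χ hχ
  exact Cq_ne q (uh_psi _ _ (hprim q hq χ hχ).2.1) hs

/-- the conductor of half of the L-functions -/
noncomputable def A0 (q : ZI) : ℝ := ∏ χ ∈ FQs q, ((4 * Zsqrtd.norm (cd q χ) : ℤ) : ℝ)

theorem A0_pos {q : ZI} (hq : q ≠ 0) : 0 < A0 cd q := by
  unfold A0
  refine Finset.prod_pos fun χ hχ => ?_
  have h2 := GaussianInt.norm_pos.2 (hprim q hq χ hχ).2.1.q0
  have : 0 < 4 * Zsqrtd.norm (cd q χ) := by omega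
  exact_mod_cast this

theorem GG_eq {q : ZI} (hq : q ≠ 0) (s : ℂ) :
    GG cd q s = (A0 cd q : ℂ) ^ (s / 2) * Gammaℂ (s + 1 / 2) ^ (FQs q).card := by
  unfold GG A0
  rw [Finset.prod_mul_distrib, Finset.prod_const, ← prod_cpow]
  · congr 1
  · intro χ hχ
    have h2 := GaussianInt.norm_pos.2 (hprim q hq χ hχ).2.1.q0
    have : 0 < 4 * Zsqrtd.norm (cd q χ) := by omega
    exact_mod_cast this

omit hprim in
theorem gammaC_conj (s : ℂ) : Gammaℂ (conj s) = conj (Gammaℂ s) := by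
  rw [← Complex.Gammaℝ_mul_Gammaℝ_add_one, ← Complex.Gammaℝ_mul_Gammaℝ_add_one, map_mul, ← gr_conj,
    ← gr_conj, map_add, map_one]

omit hprim in
theorem cpow_conj' {x : ℝ} (hx : 0 < x) (s : ℂ) : (x : ℂ) ^ (conj s) = conj ((x : ℂ) ^ s) := by
  have hxc : (x : ℂ) ≠ 0 := by exact_mod_cast hx.ne'
  rw [Complex.cpow_def_of_ne_zero hxc, Complex.cpow_def_of_ne_zero hxc, ← Complex.exp_conj,
    ← Complex.ofReal_log hx.le, map_mul, Complex.conj_ofReal]

theorem GG_conj {q : ZI} (hq : q ≠ 0) (s : ℂ) : GG cd q (conj s) = conj (GG cd q s) := by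
  rw [GG_eq cd pr hprim hq, GG_eq cd pr hprim hq, map_mul, map_pow, ← gammaC_conj, ← cpow_conj'
    (A0_pos cd pr hprim hq)]
  congr 3
  · rw [map_div₀, map_ofNat]
  · rw [map_add, map_div₀, map_one, map_ofNat]

theorem main {q : ZI} (hq : q ≠ 0) (h2 : two2 ∣ q) (K : Type) [Field K] [NumberField K]
    (ι : ZI →+* 𝓞 K) (art : (RQ q)ˣ →* (𝓞 K ≃+* 𝓞 K)) (H : IsRayClassField q K ι art)
    {D : ℤ} (hD : D ≠ 0) (hd : ∃ d : 𝓞 K, d ^ 4 = (D : 𝓞 K))
    (a ε : HeightOneSpectrum (𝓞 K) → ℤ)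
    (hpos : ∀ v ∈ exc q ι D, Poss (Ideal.absNorm v.asIdeal) (a v) (ε v)) :
    (exc q ι D).Finite ∧ ∃ (L Λ B : ℂ → ℂ) (A : ℝ), 0 < A ∧
      AnalyticOnNhd ℂ L {s : ℂ | 1 / 2 < s.re} ∧
      (∀ s : ℂ, 3 / 2 < s.re → HasProd (fac q ι D a ε s) (L s)) ∧
      Differentiable ℂ Λ ∧ (∀ s : ℂ, Λ (2 - s) = Λ s) ∧ (∀ s : ℂ, Λ (conj s) = conj (Λ s)) ∧
      EulerQuot B ∧ AnalyticOnNhd ℂ B {s : ℂ | 1 / 2 < s.re} ∧ (∀ s : ℂ, 1 / 2 < s.re → B s ≠ 0) ∧
      (∀ s : ℂ, 1 / 2 < s.re → Λ s = (A : ℂ) ^ (s / 2) *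
        ((2 * (Real.pi : ℂ)) ^ (-s) * Complex.Gamma s) ^ (2 * Nat.card art.range) *
          (B s * L s)) ∧
      LogCriterion 0 (fun z => Λ (1 + z)) (∀ s : ℂ, 1 / 2 < s.re → L s = 0 → s.re = 1) ∧
      Pool.Agent.H986R2.GD.Crit (fun z => Λ (1 + z))
        (∀ s : ℂ, 1 / 2 < s.re → L s = 0 → s.re = 1) := by
  classical
  have hιinj := iota_inj ι
  have h8 := eight_le_nrm hq h2
  have hcard : (FQs q).card = Nat.card art.range := by
    have c1 := H385.fq_card q (by omega)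
    have c2 := ray_card hq h2 H
    have c3 : ((4 * Nat.card art.range : ℕ) : ℝ) = (phiQ q : ℝ) := by exact_mod_cast c2
    push_cast at c3
    have c4 : ((FQs q).card : ℝ) = (Nat.card art.range : ℝ) := by
      rw [c1, ← c3]
      ring
    exact_mod_cast c4
  have hphi : 0 < phiQ q := (H385.fq_finite q hq).2.1
  have hne : (FQs q).Nonempty := by
    rw [← Finset.card_pos, hcard]
    have c2 := ray_card hq h2 H
    omega
  obtain ⟨w, Λ1, hg⟩ := good_Q cd pr hprim hq hne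
  have hhalf : ∀ {s : ℂ}, -(1 / 2 : ℝ) < s.re → Λ1 s = GG cd q s * LQ pr q s :=
    fun hs => good_Q_half cd pr hprim hq hg hs
  obtain ⟨l, M, b, hl, hw, hc, -⟩ := hg
  obtain ⟨hcr1, hcr2⟩ := hc.crit hw hl
  have hcr3 := hc.critH hw hl
  obtain ⟨hfin, R, hRq, hR, hprod⟩ := curve (F := fun s => FE pr q (s - 1 / 2) * FE pr (star q) (s - 1 / 2))
    hq h2 K ι D hιinj (fun s hs => hasProd_K cd pr hprim hq h2 H hs) hD hd a ε hpos
  have hq' : star q ≠ 0 := fun h => hq (by rw [← star_star q, h, star_zero])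
  have hA0 := A0_pos cd pr hprim hq
  set m : ℕ := Nat.card art.range with hm
  set L : ℂ → ℂ := fun s => FE pr q (s - 1 / 2) * FE pr (star q) (s - 1 / 2) * R s with hL
  set Λ : ℂ → ℂ := fun s => Λ1 (s - 1 / 2) * st Λ1 (s - 1 / 2) with hΛ
  set B : ℂ → ℂ := fun s => ((A0 cd q : ℝ) : ℂ) ^ (-(1 / 2) : ℂ) * 2 ^ (2 * m) *
    (CQ pr q (s - 1 / 2) * st (CQ pr q) (s - 1 / 2) * R s)⁻¹ with hB
  have hre : ∀ s : ℂ, (s - 1 / 2).re = s.re - 1 / 2 := fun s => by simp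
  have hden : ∀ s : ℂ, 1 / 2 < s.re →
      CQ pr q (s - 1 / 2) * st (CQ pr q) (s - 1 / 2) * R s ≠ 0 := by
    intro s hs
    have h0 : 0 < (s - 1 / 2).re := by rw [hre]; linarith
    refine mul_ne_zero (mul_ne_zero (CQ_ne cd pr hprim hq h0) ?_) (hR s hs).2
    unfold st
    rw [map_ne_zero]
    refine CQ_ne cd pr hprim hq ?_
    rwa [Complex.conj_re]
  have hAc : ((A0 cd q : ℝ) : ℂ) ≠ 0 := by exact_mod_cast hA0.ne'
  have hkey : ∀ s : ℂ, 1 / 2 < s.re → Λ s = (((A0 cd q) ^ 2 : ℝ) : ℂ) ^ (s / 2) *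
        ((2 * (Real.pi : ℂ)) ^ (-s) * Complex.Gamma s) ^ (2 * m) * (B s * L s) := by
    intro s hs
    have h0 : 0 < (s - 1 / 2).re := by rw [hre]; linarith
    have h1 : -(1 / 2 : ℝ) < (s - 1 / 2).re := by linarith
    have h1' : -(1 / 2 : ℝ) < (conj (s - 1 / 2)).re := by rw [Complex.conj_re]; linarith
    have e1 := hhalf h1
    have e2 : st Λ1 (s - 1 / 2) = GG cd q (s - 1 / 2) * st (LQ pr q) (s - 1 / 2) := by
      unfold st
      rw [hhalf h1', map_mul, GG_conj cd pr hprim hq, Complex.conj_conj]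
    have e3 : FE pr (star q) (s - 1 / 2) = st (LQ pr q) (s - 1 / 2) * st (CQ pr q) (s - 1 / 2) := by
      rw [FE_star cd pr hprim hq h2 H, FE_eq_mul, map_mul]
      rfl
    have e4 : GG cd q (s - 1 / 2) * GG cd q (s - 1 / 2) = (((A0 cd q) ^ 2 : ℝ) : ℂ) ^ (s / 2) *
        ((2 * (Real.pi : ℂ)) ^ (-s) * Complex.Gamma s) ^ (2 * m) *
        (((A0 cd q : ℝ) : ℂ) ^ (-(1 / 2) : ℂ) * 2 ^ (2 * m)) := by
      rw [GG_eq cd pr hprim hq, hcard]
      have e5 : (s - 1 / 2 + 1 / 2 : ℂ) = s := by ring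
      rw [e5, Complex.Gammaℂ_def]
      have e6 : (((A0 cd q) ^ 2 : ℝ) : ℂ) ^ (s / 2) = ((A0 cd q : ℝ) : ℂ) ^ (s / 2) *
          ((A0 cd q : ℝ) : ℂ) ^ (s / 2) := by
        rw [sq, Complex.ofReal_mul, Complex.mul_cpow_ofReal_nonneg hA0.le hA0.le]
      have e7 : ((A0 cd q : ℝ) : ℂ) ^ ((s - 1 / 2) / 2) * ((A0 cd q : ℝ) : ℂ) ^ ((s - 1 / 2) / 2) =
          ((A0 cd q : ℝ) : ℂ) ^ (s / 2) * ((A0 cd q : ℝ) : ℂ) ^ (s / 2) *
            ((A0 cd q : ℝ) : ℂ) ^ (-(1 / 2) : ℂ) := by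
        rw [← Complex.cpow_add _ _ hAc, ← Complex.cpow_add _ _ hAc, ← Complex.cpow_add _ _ hAc]
        congr 1
        ring
      calc _ = (((A0 cd q : ℝ) : ℂ) ^ ((s - 1 / 2) / 2) * ((A0 cd q : ℝ) : ℂ) ^ ((s - 1 / 2) / 2)) *
            ((2 * (Real.pi : ℂ)) ^ (-s) * Complex.Gamma s) ^ (2 * m) * 2 ^ (2 * m) := by ring
        _ = _ := by rw [e7, e6]; ring
    show Λ1 (s - 1 / 2) * st Λ1 (s - 1 / 2) = _
    have e8 : B s * L s = (((A0 cd q : ℝ) : ℂ) ^ (-(1 / 2) : ℂ) * 2 ^ (2 * m)) *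
        (LQ pr q (s - 1 / 2) * st (LQ pr q) (s - 1 / 2)) := by
      show ((A0 cd q : ℝ) : ℂ) ^ (-(1 / 2) : ℂ) * 2 ^ (2 * m) *
        (CQ pr q (s - 1 / 2) * st (CQ pr q) (s - 1 / 2) * R s)⁻¹ *
        (FE pr q (s - 1 / 2) * FE pr (star q) (s - 1 / 2) * R s) = _
      rw [e3, FE_eq_mul]
      have h9 := hden s hs
      have : LQ pr q (s - 1 / 2) * CQ pr q (s - 1 / 2) * (st (LQ pr q) (s - 1 / 2) *
          st (CQ pr q) (s - 1 / 2)) * R s = (CQ pr q (s - 1 / 2) * st (CQ pr q) (s - 1 / 2) * R s) *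
          (LQ pr q (s - 1 / 2) * st (LQ pr q) (s - 1 / 2)) := by ring
      rw [this, mul_assoc _ (_)⁻¹, ← mul_assoc (_)⁻¹, inv_mul_cancel₀ h9, one_mul]
    rw [e8, e1, e2]
    calc _ = (GG cd q (s - 1 / 2) * GG cd q (s - 1 / 2)) *
        (LQ pr q (s - 1 / 2) * st (LQ pr q) (s - 1 / 2)) := by ring
      _ = _ := by rw [e4]; ring
  have hLan : AnalyticOnNhd ℂ L {s : ℂ | 1 / 2 < s.re} := by
    intro s hs
    have hd1 := FE_diff cd pr hprim hq
    have hd2 := FE_diff cd pr hprim hq'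
    have h1 : Differentiable ℂ fun s : ℂ => FE pr q (s - 1 / 2) * FE pr (star q) (s - 1 / 2) :=
      (hd1.comp (by fun_prop)).mul (hd2.comp (by fun_prop))
    exact (h1.analyticAt s).mul (hR s hs).1
  have hBan : AnalyticOnNhd ℂ B {s : ℂ | 1 / 2 < s.re} := by
    intro s hs
    have hd1 := CQ_diff pr q
    have h1 : Differentiable ℂ fun s : ℂ => CQ pr q (s - 1 / 2) * st (CQ pr q) (s - 1 / 2) :=
      (hd1.comp (by fun_prop)).mul ((st_diff hd1).comp (by fun_prop))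
    exact analyticAt_const.mul (((h1.analyticAt s).mul (hR s hs).1).inv (hden s hs))
  have hBq : EulerQuot B := by
    have hCQ : EulerQuot (CQ pr q) := EulerQuot.prod _ _ fun χ _ => cq_quot q _
    have hc : ((A0 cd q : ℝ) : ℂ) ^ (-(1 / 2) : ℂ) * 2 ^ (2 * m) ≠ 0 := by
      refine mul_ne_zero ?_ (pow_ne_zero _ two_ne_zero)
      rw [Complex.cpow_ne_zero_iff]
      exact Or.inl hAc
    refine EulerQuot.mul (EulerQuot.const _ hc) (EulerQuot.inv (EulerQuot.mul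
      (EulerQuot.mul ?_ ?_) hRq))
    · refine (hCQ.shift (1 / 2)).congr fun s => ?_
      push_cast
      rfl
    · refine (hCQ.star.shift (1 / 2)).congr fun s => ?_
      push_cast
      rfl
  have hBne : ∀ s : ℂ, 1 / 2 < s.re → B s ≠ 0 := by
    intro s hs
    refine mul_ne_zero (mul_ne_zero ?_ (pow_ne_zero _ two_ne_zero)) (inv_ne_zero (hden s hs))
    rw [Complex.cpow_ne_zero_iff]
    exact Or.inl hAc
  have hfe : ∀ s : ℂ, Λ (2 - s) = Λ s := by
    intro s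
    have h1 := hcr1 (s - 1)
    show Λ1 (2 - s - 1 / 2) * st Λ1 (2 - s - 1 / 2) = Λ1 (s - 1 / 2) * st Λ1 (s - 1 / 2)
    have e1 : (2 - s - 1 / 2 : ℂ) = 1 / 2 + -(s - 1) := by ring
    have e2 : (s - 1 / 2 : ℂ) = 1 / 2 + (s - 1) := by ring
    rw [e1, e2]
    exact h1
  have hzero : ∀ s : ℂ, 1 / 2 < s.re → (Λ s = 0 ↔ L s = 0) := by
    intro s hs
    rw [hkey s hs]
    have hs0 : 0 < s.re := by linarith
    have h1 : (((A0 cd q) ^ 2 : ℝ) : ℂ) ^ (s / 2) ≠ 0 := by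
      rw [Complex.cpow_ne_zero_iff]
      left
      exact_mod_cast (pow_pos hA0 2).ne'
    have h3 : ((2 * (Real.pi : ℂ)) ^ (-s) * Complex.Gamma s) ^ (2 * m) ≠ 0 := by
      refine pow_ne_zero _ (mul_ne_zero ?_ (Complex.Gamma_ne_zero_of_re_pos hs0))
      rw [Complex.cpow_ne_zero_iff]
      left
      exact mul_ne_zero two_ne_zero (by exact_mod_cast Real.pi_ne_zero)
    constructor
    · intro h
      rcases mul_eq_zero.1 h with h4 | h4
      · rcases mul_eq_zero.1 h4 with h5 | h5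
        · exact absurd h5 h1
        · exact absurd h5 h3
      · exact (mul_eq_zero.1 h4).resolve_left (hBne s hs)
    · intro h
      rw [h, mul_zero, mul_zero]
  have hrh : (∀ s : ℂ, Λ1 s = 0 → s.re = 1 / 2) ↔
      (∀ s : ℂ, 1 / 2 < s.re → L s = 0 → s.re = 1) := by
    constructor
    · intro h s hs hs0
      rcases mul_eq_zero.1 ((hzero s hs).2 hs0) with h1 | h1
      · have := h _ h1
        rw [hre] at this
        linarith
      · unfold st at h1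
        have := h _ ((map_eq_zero _).1 h1)
        rw [Complex.conj_re, hre] at this
        linarith
    · intro h u hu
      have h1 : Λ (u + 1 / 2) = 0 := by
        show Λ1 (u + 1 / 2 - 1 / 2) * _ = 0
        rw [add_sub_cancel_right, hu, zero_mul]
      have e0 : (u + 1 / 2).re = u.re + 1 / 2 := by simp
      by_cases hcase : 1 / 2 < (u + 1 / 2).re
      · have := h _ hcase ((hzero _ hcase).1 h1)
        rw [e0] at this
        linarith
      · exfalso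
        have e3 : (2 - (u + 1 / 2)).re = 2 - (u.re + 1 / 2) := by simp
        rw [e0] at hcase
        have h3 : Λ (2 - (u + 1 / 2)) = 0 := by rw [hfe, h1]
        have h4 : 1 / 2 < (2 - (u + 1 / 2)).re := by rw [e3]; linarith
        have := h _ h4 ((hzero _ h4).1 h3)
        rw [e3] at this
        linarith
  have hFeq : (fun z => Λ (1 + z)) = fun z => Λ1 (1 / 2 + z) * st Λ1 (1 / 2 + z) := by
    funext z
    show Λ1 (1 + z - 1 / 2) * st Λ1 (1 + z - 1 / 2) = _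
    have : (1 + z - 1 / 2 : ℂ) = 1 / 2 + z := by ring
    rw [this]
  refine ⟨hfin, L, Λ, B, (A0 cd q) ^ 2, pow_pos hA0 2, hLan, hprod, ?_, hfe, ?_, hBq, hBan, hBne, hkey,
    ?_, ?_⟩
  · exact (hc.entire.comp (by fun_prop)).mul ((st_diff hc.entire).comp (by fun_prop))
  · intro s
    show Λ1 (conj s - 1 / 2) * st Λ1 (conj s - 1 / 2) =
      conj (Λ1 (s - 1 / 2) * st Λ1 (s - 1 / 2))
    have e : conj s - 1 / 2 = conj (s - 1 / 2) := by
      rw [map_sub, map_div₀, map_one, map_ofNat]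
    unfold st
    rw [e, Complex.conj_conj, map_mul, Complex.conj_conj, mul_comm]
  · rw [hFeq]
    obtain ⟨C, hC, h3, h4⟩ := hcr2
    exact ⟨C, hC, h3, hrh.symm.trans h4⟩
  · rw [hFeq]
    exact Pool.Agent.H986R2.GD.crit_congr (fun _ => rfl) hrh hcr3

end

end Pool.Agent.W355.EK
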