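import Pool.Agent.W355.EK.Comp

set_option autoImplicit false

/-!
# The conjugate characters
-/

namespace Pool.Agent.W355.EK

open Complex Filter Topology Set NumberField IsDedekindDomain
open scoped ComplexConjugate
open Pool.Agent.W355.LJ
open H385 (ZI RQ im1 chiZ FQs phiQ nrm)
open Pool.Agent.H304R3.HK (tc HC LH bH psi bb goodH)
open Pool.Agent.W164.RC

theorem YY_conj (p : ℕ) (s : ℂ) (z : ZI) :
    conj (YY p (conj s) z) = YY p s (star z) := by
  have h1 : conj ((p : ℂ) ^ (-(conj s))) = (p : ℂ) ^ (-s) := by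
    rw [← map_neg]
    rcases Nat.eq_zero_or_pos p with rfl | hp
    · by_cases hs : s = 0
      · simp [hs]
      · have h2 : -s ≠ 0 := neg_ne_zero.2 hs
        have h3 : conj (-s) ≠ 0 := (map_ne_zero _).2 h2
        rw [Nat.cast_zero, Complex.zero_cpow h2, Complex.zero_cpow h3, map_zero]
    · have hp' : (p : ℂ) ≠ 0 := by exact_mod_cast hp.ne'
      rw [Complex.cpow_def_of_ne_zero hp', Complex.cpow_def_of_ne_zero hp', ← Complex.exp_conj,
        map_mul, Complex.conj_conj, ← Complex.natCast_log, Complex.conj_ofReal]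
  unfold YY
  rw [map_mul, map_pow, h1, ← Pool.Agent.W164.RC.tc_star]

section
variable (cd : (q : ZI) → MulChar (RQ q) ℂ → ZI)
    (pr : (q : ZI) → MulChar (RQ q) ℂ → (ZI →* ℂ))
    (hprim : ∀ q : ZI, q ≠ 0 → ∀ χ ∈ FQs q, cd q χ ∣ q ∧ HC (cd q χ) (pr q χ) ∧
      ∀ a : ZI, IsCoprime a q → pr q χ a = chiZ q χ a)

include hprim

theorem FE_star_half {q : ZI} (hq : q ≠ 0) (h2 : two2 ∣ q) {K : Type} [Field K] [NumberField K]
    {ι : ZI →+* 𝓞 K} {art : (RQ q)ˣ →* (𝓞 K ≃+* 𝓞 K)} (H : IsRayClassField q K ι art) {s : ℂ}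
    (hs : 1 < s.re) : conj (FE pr q (conj s)) = FE pr (star q) s := by
  classical
  have hq' : star q ≠ 0 := fun h => hq (by rw [← star_star q, h, star_zero])
  have h2' := two_dvd_star h2
  have hsc : 1 < (conj s).re := by rwa [Complex.conj_re]
  have h1 := hasProd_FE cd pr hprim hq h2 hsc
  have h3 := hasProd_FE cd pr hprim hq' h2' hs
  have h4 := h1.map (starRingEnd ℂ) Complex.continuous_conj
  refine h4.unique ?_
  convert h3 using 1
  funext p
  simp only [Function.comp_apply]
  have e1 : (conj s + 1 / 2 : ℂ) - 1 / 2 = conj s := by ring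
  have e2 : (s + 1 / 2 : ℂ) - 1 / 2 = s := by ring
  have hr1 : 1 / 2 < (conj s + 1 / 2 : ℂ).re := by
    have : (conj s + 1 / 2 : ℂ).re = s.re + 1 / 2 := by simp
    rw [this]; linarith
  have hr2 : 1 / 2 < (s + 1 / 2 : ℂ).re := by
    have : (s + 1 / 2 : ℂ).re = s.re + 1 / 2 := by simp
    rw [this]; linarith
  have c1 := chi_side hq h2 (pr q) (fun χ hχ => (hprim q hq χ hχ).2.2) p.2 (fz q) (Nz q)
        (fun z hz hzq => by
          obtain ⟨k1, k2, k3, k4⟩ := Nz_spec hq h2 H p.2 hz hzq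
          exact ⟨k3, fz_dvd q z, k4⟩) hr1
  have c2 := chi_side hq' h2' (pr (star q)) (fun χ hχ => (hprim _ hq' χ hχ).2.2) p.2 (fz (star q))
        (Nz (star q))
        (fun z hz hzq => by
          have hz' := star_mem_Ip p.2 hz
          have hzq' : ¬ star z ∣ q := fun h => hzq (by
            rw [← star_star z]; exact star_dvd.2 h)
          obtain ⟨k1, k2, k3, k4⟩ := Nz_spec hq h2 H p.2 hz' hzq'
          have e1 := fz_star q (star z)
          have e2 := Nz_star q (star z)
          rw [star_star] at e1 e2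
          refine ⟨by rw [e1]; exact k3, fz_dvd _ z, ?_⟩
          rw [e1, e2, phiQ_star]
          exact k4) hr2
  rw [e1] at c1
  rw [e2] at c2
  rw [c1, c2]
  split_ifs with hp2
  · exact map_one _
  · have e3 : {z : ZI | z ∈ Ip p ∧ ¬ z ∣ q} = (((Ip p).filter (fun z => ¬ z ∣ q) : Finset ZI) :
          Set ZI) := by
      ext z
      simp
    have e4 : {z : ZI | z ∈ Ip p ∧ ¬ z ∣ star q} =
        ((((Ip p).filter (fun z => ¬ z ∣ q)).image star : Finset ZI) : Set ZI) := by
      ext z
      simp only [Set.mem_ofPred_eq, Finset.coe_image, Set.mem_image, Finset.mem_coe,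
        Finset.mem_filter]
      constructor
      · rintro ⟨hz, hzq⟩
        refine ⟨star z, ⟨star_mem_Ip p.2 hz, fun h => hzq ?_⟩, star_star z⟩
        rw [← star_star z]; exact star_dvd.2 h
      · rintro ⟨w, ⟨hw, hwq⟩, rfl⟩
        exact ⟨star_mem_Ip p.2 hw, fun h => hwq (star_dvd.1 h)⟩
    rw [e3, e4, finprod_mem_coe_finset, finprod_mem_coe_finset,
      Finset.prod_image (fun a _ b _ h => star_injective h), map_prod]
    refine Finset.prod_congr rfl fun z _ => ?_
    have e5 : conj s + 1 / 2 = conj (s + 1 / 2) := by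
      rw [map_add, map_div₀, map_one, map_ofNat]
    rw [fz_star, Nz_star, map_inv₀, map_pow, map_sub, map_one, map_pow, e5, YY_conj]

theorem FE_star {q : ZI} (hq : q ≠ 0) (h2 : two2 ∣ q) {K : Type} [Field K] [NumberField K]
    {ι : ZI →+* 𝓞 K} {art : (RQ q)ˣ →* (𝓞 K ≃+* 𝓞 K)} (H : IsRayClassField q K ι art) (s : ℂ) :
    FE pr (star q) s = conj (FE pr q (conj s)) := by
  have hq' : star q ≠ 0 := fun h => hq (by rw [← star_star q, h, star_zero])
  have hd1 := st_diff (FE_diff cd pr hprim hq)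
  have hd2 := FE_diff cd pr hprim hq'
  exact half_eq (a := s.re - 1) (σ := 2) (fun z _ => hd2.analyticAt z) (fun z _ => hd1.analyticAt z)
    (fun z hz => (FE_star_half cd pr hprim hq h2 H (by linarith)).symm) s (by linarith)

end

end Pool.Agent.W355.EK
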